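import Mathlib

/-!
# A three-parameter family of regions in three-space with unbounded chromatic number

Points are triples `(y, h, a)`. A region is given by three real parameters `t, c, s`: it is the set
of the points with `t ^ 2 y ^ 2 + c y + s < h + a t`. We show that for all `c` and `m` there is a
finite set of points such that every colouring with `c` colours leaves a region with at least `m`
points, all of one colour.
-/

set_option autoImplicit false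

namespace Pool.Agent.Y380.UB

open Filter Topology

abbrev Pt := ℝ × ℝ × ℝ

/-- the defining function of the regions -/
def Ph (t c s : ℝ) (p : Pt) : ℝ := t ^ 2 * p.1 ^ 2 + c * p.1 + s - p.2.1 - p.2.2 * t

/-- the set `S` of indices is cut out by a region with first parameter `t`. -/
def CutAt {ι : Type} (t : ℝ) (f : ι → Pt) (S : Finset ι) : Prop :=
  ∃ c s : ℝ, ∀ i, (i ∈ S → Ph t c s (f i) < 0) ∧ (i ∉ S → 0 < Ph t c s (f i))

def Sep {ι : Type} (f : ι → Pt) : Prop := ∀ i j, (f i).1 = (f j).1 → i = j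

def Good (c m : ℕ) (T : Set ℝ) {ι : Type} (f : ι → Pt) : Prop :=
  ∀ col : ι → ℕ, (∀ i, col i < c) →
    ∃ S : Finset ι, m ≤ S.card ∧ (∃ k, ∀ i ∈ S, col i = k) ∧ ∃ t ∈ T, CutAt t f S

def Semi (c m j : ℕ) {ι : Type} (f : ι → Pt) : Prop :=
  ∀ col : ι → ℕ, (∀ i, col i < c + 1) →
    (∃ S : Finset ι, m ≤ S.card ∧ (∃ k, ∀ i ∈ S, col i = k) ∧ ∃ t : ℝ, t ≠ 0 ∧ CutAt t f S) ∨
    (∃ S : Finset ι, S.card = j ∧ (∀ i ∈ S, col i = c) ∧ CutAt 0 f S)

def Conc {ι : Type} (f : ι → Pt) (l : ι → ℝ) : Prop :=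
  ∀ i j, j ≠ i → (f j).2.1 < (f i).2.1 + l i * ((f j).1 - (f i).1)

lemma ev_pos (f : ℝ → ℝ) (hf : Continuous f) (h : 0 < f 0) : ∀ᶠ t in 𝓝[>] (0 : ℝ), 0 < f t := by
  have h1 : ∀ᶠ t in 𝓝 (0 : ℝ), 0 < f t := hf.continuousAt.eventually (lt_mem_nhds h)
  exact h1.filter_mono nhdsWithin_le_nhds

lemma ev_ne (f : ℝ → ℝ) (hf : Continuous f) (h : f 0 ≠ 0) : ∀ᶠ t in 𝓝[>] (0 : ℝ), f t ≠ 0 := by
  have h1 : ∀ᶠ t in 𝓝 (0 : ℝ), f t ≠ 0 := hf.continuousAt.eventually (isOpen_ne.mem_nhds h)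
  exact h1.filter_mono nhdsWithin_le_nhds

lemma ev_self : ∀ᶠ t in 𝓝[>] (0 : ℝ), 0 < t := self_mem_nhdsWithin

lemma ev_quad (A B D : ℝ) (hD : 0 < D) : ∀ᶠ τ in atTop, 0 < A + B * τ + D * τ ^ 2 := by
  filter_upwards [eventually_ge_atTop (1 : ℝ), eventually_ge_atTop ((|A| + |B| + 1) / D)] with τ h1 h2
  rw [div_le_iff₀ hD] at h2
  have h3 := neg_abs_le A
  have h4 : -(|B| * τ) ≤ B * τ := by
    have := neg_abs_le B
    nlinarith
  have h5 : (|A| + |B| + 1) * τ ≤ D * τ ^ 2 := by nlinarith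
  have h6 := abs_nonneg A
  nlinarith

lemma ev_lin (A B : ℝ) (hB : 0 < B) : ∀ᶠ τ in atTop, 0 < A + B * τ := by
  filter_upwards [eventually_gt_atTop (-A / B)] with τ h
  rw [div_lt_iff₀ hB] at h
  linarith

/-- translation of the first parameter -/
def sh (τ : ℝ) (p : Pt) : Pt := (p.1, p.2.1 + p.2.2 * τ - τ ^ 2 * p.1 ^ 2, p.2.2 - 2 * τ * p.1 ^ 2)

lemma Ph_sh (t c s τ : ℝ) (p : Pt) : Ph t c s (sh τ p) = Ph (t + τ) c s p := by
  simp only [Ph, sh]; ring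

lemma norm {ι : Type} [Finite ι] (c m : ℕ) (f : ι → Pt) (hg : Good c m Set.univ f) (hs : Sep f) :
    ∃ f' : ι → Pt, ∃ l : ι → ℝ, Good c m {t | t < 0} f' ∧ Sep f' ∧ Conc f' l := by
  have h1 : ∀ᶠ τ in atTop, ∀ S : Finset ι, (∃ t, CutAt t f S) → ∃ t < 0, CutAt t (sh τ ∘ f) S := by
    rw [eventually_all]
    intro S
    by_cases h : ∃ t, CutAt t f S
    swap
    · exact Eventually.of_forall fun τ h' => absurd h' h
    obtain ⟨t, b, s, h⟩ := h
    filter_upwards [eventually_gt_atTop t] with τ hτ _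
    refine ⟨t - τ, by linarith, b, s, fun i => ?_⟩
    rw [Function.comp_apply, Ph_sh, sub_add_cancel]
    exact h i
  have h2 : ∀ᶠ τ in atTop, ∀ i j : ι, j ≠ i →
      0 < ((f i).2.1 - (f j).2.1) + ((f i).2.2 - (f j).2.2) * τ
        + ((f j).1 - (f i).1) ^ 2 * τ ^ 2 := by
    rw [eventually_all]
    intro i
    rw [eventually_all]
    intro j
    by_cases h : j = i
    · exact Eventually.of_forall fun τ h' => absurd h h'
    have h3 : (f j).1 - (f i).1 ≠ 0 := fun h' => h (hs j i (by linarith))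
    filter_upwards [ev_quad ((f i).2.1 - (f j).2.1) ((f i).2.2 - (f j).2.2)
      (((f j).1 - (f i).1) ^ 2) (by positivity)] with τ h _
    exact h
  obtain ⟨τ, h1, h2⟩ := (h1.and h2).exists
  refine ⟨sh τ ∘ f, fun i => -(2 * τ ^ 2 * (f i).1), ?_, ?_, ?_⟩
  · intro col hcol
    obtain ⟨S, hS, hk, t, _, ht⟩ := hg col hcol
    obtain ⟨t', ht', h⟩ := h1 S ⟨t, ht⟩
    exact ⟨S, hS, hk, t', ht', h⟩
  · intro i j h
    exact hs i j h
  · intro i j hij
    have := h2 i j hij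
    simp only [Function.comp_apply, sh]
    nlinarith

/-- the copy of the point `p` in the cluster with centre `(Y, H, A)` and slope `l`. -/
def cp (Y H A l μ ν : ℝ) (p : Pt) : Pt :=
  (Y + ν * p.1, H + l * ν * p.1 + ν ^ 2 * μ ^ 2 * p.2.1, A + ν ^ 2 * μ * p.2.2)

/-- parameters of the region in the cluster -/
def Cc (Y l μ ν T c : ℝ) : ℝ := l - 2 * T ^ 2 * Y + ν * μ ^ 2 * c

def Ss (Y H A l μ ν T c s : ℝ) : ℝ :=
  ν ^ 2 * μ ^ 2 * s - T ^ 2 * Y ^ 2 - Cc Y l μ ν T c * Y + H + A * T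

lemma Ph_cp (Y H A l μ ν t c s : ℝ) (p : Pt) :
    Ph (μ * t) (Cc Y l μ ν (μ * t) c) (Ss Y H A l μ ν (μ * t) c s) (cp Y H A l μ ν p) =
      ν ^ 2 * μ ^ 2 * Ph t c s p := by
  simp only [Ph, Cc, Ss, cp]; ring

lemma Ph_other (Y H A l μ ν T c s : ℝ) (p : Pt) :
    Ph T (Cc Y l μ ν T c) (Ss Y H A l μ ν T c s) p =
      (H - p.2.1 + l * (p.1 - Y)) + (A - p.2.2) * T + (p.1 - Y) ^ 2 * T ^ 2
        + ν * μ ^ 2 * c * (p.1 - Y) + ν ^ 2 * μ ^ 2 * s := by
  simp only [Ph, Cc, Ss]; ring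

end Pool.Agent.Y380.UB
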