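import Mathlib
import Pool.Agent.Y380.UB.Fam

set_option autoImplicit false

namespace Pool.Agent.Y380.UB

open Filter Topology

/-- the limit expression -/
def Lm (Y H A l T : ℝ) (p : Pt) : ℝ :=
  (H - p.2.1 + l * (p.1 - Y)) + (A - p.2.2) * T + (p.1 - Y) ^ 2 * T ^ 2

lemma ev_fix (Y H A l μ T c s : ℝ) (p : Pt) (h : 0 < Lm Y H A l T p) :
    ∀ᶠ ν in 𝓝[>] (0 : ℝ), 0 < Ph T (Cc Y l μ ν T c) (Ss Y H A l μ ν T c s) p := by
  refine ev_pos (fun ν => Ph T (Cc Y l μ ν T c) (Ss Y H A l μ ν T c s) p) ?_ ?_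
  · unfold Ph Ss Cc
    fun_prop
  · show 0 < Ph T (Cc Y l μ 0 T c) (Ss Y H A l μ 0 T c s) p
    rw [Ph_other]
    unfold Lm at h
    simpa using h

lemma ev_fix_neg (Y H A l μ T c s : ℝ) (p : Pt) (h : Lm Y H A l T p < 0) :
    ∀ᶠ ν in 𝓝[>] (0 : ℝ), Ph T (Cc Y l μ ν T c) (Ss Y H A l μ ν T c s) p < 0 := by
  have := ev_pos (fun ν => -Ph T (Cc Y l μ ν T c) (Ss Y H A l μ ν T c s) p) (by
    unfold Ph Ss Cc
    fun_prop) (by
    show 0 < -Ph T (Cc Y l μ 0 T c) (Ss Y H A l μ 0 T c s) p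
    rw [Ph_other]
    unfold Lm at h
    have : 0 < -(H - p.2.1 + l * (p.1 - Y) + (A - p.2.2) * T + (p.1 - Y) ^ 2 * T ^ 2) := by
      linarith
    simpa using this)
  filter_upwards [this] with ν h
  linarith

lemma ev_copy (Y H A l μ T c s Y' H' A' l' : ℝ) (p : Pt) (h : 0 < Lm Y H A l T (Y', H', A')) :
    ∀ᶠ ν in 𝓝[>] (0 : ℝ),
      0 < Ph T (Cc Y l μ ν T c) (Ss Y H A l μ ν T c s) (cp Y' H' A' l' μ ν p) := by
  refine ev_pos (fun ν => Ph T (Cc Y l μ ν T c) (Ss Y H A l μ ν T c s) (cp Y' H' A' l' μ ν p)) ?_ ?_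
  · unfold Ph Ss Cc cp
    fun_prop
  · show 0 < Ph T (Cc Y l μ 0 T c) (Ss Y H A l μ 0 T c s) (cp Y' H' A' l' μ 0 p)
    rw [Ph_other]
    unfold Lm at h
    simpa [cp] using h

lemma ev_q (t c s Y H A l μ : ℝ) (p : Pt) (h : 0 < Ph t c s (Y, H, A)) :
    ∀ᶠ ν in 𝓝[>] (0 : ℝ), 0 < Ph t c s (cp Y H A l μ ν p) := by
  refine ev_pos (fun ν => Ph t c s (cp Y H A l μ ν p)) ?_ ?_
  · unfold Ph cp
    fun_prop
  · simpa [Ph, cp] using h

/-- the embedding of a copy -/
def emb {κ ι : Type} (q : κ) : ι ↪ κ ⊕ (κ × ι) :=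
  ⟨fun i => Sum.inr (q, i), fun i i' h => by simpa using h⟩

lemma inr_mem {κ ι : Type} (S : Finset ι) (q q' : κ) (i : ι) :
    (Sum.inr (q', i) : κ ⊕ (κ × ι)) ∈ S.map (emb q) ↔ q' = q ∧ i ∈ S := by
  rw [Finset.mem_map]
  constructor
  · rintro ⟨a, ha, h⟩
    have h1 : (q, a) = (q', i) := Sum.inr_injective h
    rw [Prod.mk.injEq] at h1
    exact ⟨h1.1.symm, h1.2 ▸ ha⟩
  · rintro ⟨rfl, h⟩
    exact ⟨i, h, rfl⟩

lemma inl_notMem {κ ι : Type} (S : Finset ι) (q q' : κ) :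
    (Sum.inl q' : κ ⊕ (κ × ι)) ∉ S.map (emb q) := by
  rw [Finset.mem_map]
  rintro ⟨a, _, h⟩
  exact Sum.inr_ne_inl h

lemma inl_mem {κ ι : Type} (S : Finset κ) (q : κ) :
    (Sum.inl q : κ ⊕ (κ × ι)) ∈ S.map ⟨Sum.inl, Sum.inl_injective⟩ ↔ q ∈ S := by
  simp

/-- the recursion step -/
theorem step {κ ι : Type} [Finite κ] [Finite ι] (c m j : ℕ) (g : κ → Pt) (l : κ → ℝ) (f : ι → Pt)
    (hg : Good c m {t | t < 0} g) (hgs : Sep g) (hgc : Conc g l) (hf : Semi c m j f)
    (hfs : Sep f) : ∃ F : κ ⊕ (κ × ι) → Pt, Semi c m (j + 1) F ∧ Sep F := by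
  classical
  -- choice of `δ`
  have hδ : ∀ᶠ δ in 𝓝[>] (0 : ℝ), ∀ q q' : κ, q' ≠ q →
      (g q').2.1 < (g q).2.1 - δ + l q * ((g q').1 - (g q).1) := by
    rw [eventually_all]
    intro q
    rw [eventually_all]
    intro q'
    by_cases h : q' = q
    · exact Eventually.of_forall fun δ h' => absurd h h'
    have h1 := ev_pos (fun δ => (g q).2.1 - δ + l q * ((g q').1 - (g q).1) - (g q').2.1)
      (by fun_prop) (by
        have := hgc q q' h
        simp only [sub_zero]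
        linarith)
    filter_upwards [h1] with δ h1 _
    linarith
  obtain ⟨δ, hδ, hδ0⟩ := (hδ.and ev_self).exists
  -- choice of `η`
  have hη : ∀ᶠ η in 𝓝[>] (0 : ℝ), ∀ q q' : κ, q' ≠ q → (g q).1 + η ≠ (g q').1 ∧
      (g q').2.1 - δ + l q' * η < (g q).2.1 - δ + l q * ((g q').1 + η - (g q).1) := by
    rw [eventually_all]
    intro q
    rw [eventually_all]
    intro q'
    by_cases h : q' = q
    · exact Eventually.of_forall fun δ h' => absurd h h'
    have h1 := ev_ne (fun η => (g q).1 + η - (g q').1) (by fun_prop) (by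
      simp only [add_zero]
      exact fun h' => h (hgs q' q (by linarith)))
    have h2 := ev_pos (fun η => (g q).2.1 - δ + l q * ((g q').1 + η - (g q).1)
      - ((g q').2.1 - δ + l q' * η)) (by fun_prop) (by
        have := hgc q q' h
        simp only [add_zero, mul_zero]
        linarith)
    filter_upwards [h1, h2] with η h1 h2 _
    exact ⟨fun h' => h1 (by linarith), by linarith⟩
  obtain ⟨η, hη, hη0⟩ := (hη.and ev_self).exists
  set Y : κ → ℝ := fun q => (g q).1 + η with hY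
  set H : κ → ℝ := fun q => (g q).2.1 - δ + l q * η with hH
  have hYg : ∀ q q' : κ, (g q').1 - Y q ≠ 0 := by
    intro q q' h
    by_cases hq : q' = q
    · subst hq
      simp only [hY] at h
      linarith
    · exact (hη q q' hq).1 (by simp only [hY] at h; linarith)
  have hYY : ∀ q q' : κ, q' ≠ q → Y q' - Y q ≠ 0 := by
    intro q q' hq h
    exact hq (hgs q' q (by simp only [hY] at h; linarith))
  -- choice of `A`
  have hA : ∀ᶠ A in atTop, ∀ S : Finset κ, (∃ t ∈ {t : ℝ | t < 0}, CutAt t g S) →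
      ∃ t b s : ℝ, (∀ i, (i ∈ S → Ph t b s (g i) < 0) ∧ (i ∉ S → 0 < Ph t b s (g i))) ∧ t < 0 ∧
        ∀ q, 0 < Ph t b s (Y q, H q, A) := by
    rw [eventually_all]
    intro S
    by_cases h : ∃ t ∈ {t : ℝ | t < 0}, CutAt t g S
    swap
    · exact Eventually.of_forall fun τ h' => absurd h' h
    obtain ⟨t, ht, b, s, h⟩ := h
    have ht' : t < 0 := ht
    have h1 : ∀ᶠ A in atTop, ∀ q, 0 < Ph t b s (Y q, H q, A) := by
      rw [eventually_all]
      intro q
      filter_upwards [ev_lin (t ^ 2 * Y q ^ 2 + b * Y q + s - H q) (-t) (by linarith)] with A hA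
      simp only [Ph]
      linarith
    filter_upwards [h1] with A h1 _
    exact ⟨t, b, s, h, ht', h1⟩
  obtain ⟨A, hA⟩ := hA.exists
  -- choice of `μ`
  have hμ : ∀ᶠ μ in atTop, ∀ S : Finset ι, (∃ t : ℝ, t ≠ 0 ∧ CutAt t f S) →
      ∃ t b s : ℝ, (∀ i, (i ∈ S → Ph t b s (f i) < 0) ∧ (i ∉ S → 0 < Ph t b s (f i))) ∧ t ≠ 0 ∧
        ∀ q q', 0 < Lm (Y q) (H q) A (l q) (μ * t) (g q') ∧
          (q' ≠ q → 0 < Lm (Y q) (H q) A (l q) (μ * t) (Y q', H q', A)) := by
    rw [eventually_all]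
    intro S
    by_cases h : ∃ t : ℝ, t ≠ 0 ∧ CutAt t f S
    swap
    · exact Eventually.of_forall fun τ h' => absurd h' h
    obtain ⟨t, ht, b, s, h⟩ := h
    have h1 : ∀ᶠ μ in atTop, ∀ q q', 0 < Lm (Y q) (H q) A (l q) (μ * t) (g q') ∧
          (q' ≠ q → 0 < Lm (Y q) (H q) A (l q) (μ * t) (Y q', H q', A)) := by
      rw [eventually_all]
      intro q
      rw [eventually_all]
      intro q'
      have h3 := hYg q q'
      have h2 := ev_quad (H q - (g q').2.1 + l q * ((g q').1 - Y q)) ((A - (g q').2.2) * t)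
        (((g q').1 - Y q) ^ 2 * t ^ 2) (by positivity)
      by_cases hq : q' = q
      · filter_upwards [h2] with μ h2
        refine ⟨?_, fun h' => absurd hq h'⟩
        simp only [Lm]
        nlinarith
      have h5 := hYY q q' hq
      have h4 := ev_quad (H q - H q' + l q * (Y q' - Y q)) ((A - A) * t)
        ((Y q' - Y q) ^ 2 * t ^ 2) (by positivity)
      filter_upwards [h2, h4] with μ h2 h4
      refine ⟨?_, fun _ => ?_⟩
      · simp only [Lm]
        nlinarith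
      · simp only [Lm]
        nlinarith
    filter_upwards [h1] with μ h1 _
    exact ⟨t, b, s, h, ht, h1⟩
  obtain ⟨μ, hμ, hμ0⟩ := (hμ.and (eventually_gt_atTop (0 : ℝ))).exists
  -- choice of `ν`
  have hνA : ∀ᶠ ν in 𝓝[>] (0 : ℝ), ∀ S : Finset κ, (∃ t ∈ {t : ℝ | t < 0}, CutAt t g S) →
      ∃ t b s : ℝ, (∀ i, (i ∈ S → Ph t b s (g i) < 0) ∧ (i ∉ S → 0 < Ph t b s (g i))) ∧ t < 0 ∧
        ∀ q i, 0 < Ph t b s (cp (Y q) (H q) A (l q) μ ν (f i)) := by
    rw [eventually_all]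
    intro S
    by_cases h : ∃ t ∈ {t : ℝ | t < 0}, CutAt t g S
    swap
    · exact Eventually.of_forall fun τ h' => absurd h' h
    obtain ⟨t, b, s, h1, ht, h2⟩ := hA S h
    have h3 : ∀ᶠ ν in 𝓝[>] (0 : ℝ), ∀ q i, 0 < Ph t b s (cp (Y q) (H q) A (l q) μ ν (f i)) := by
      rw [eventually_all]
      intro q
      rw [eventually_all]
      intro i
      exact ev_q t b s (Y q) (H q) A (l q) μ (f i) (h2 q)
    filter_upwards [h3] with ν h3 _
    exact ⟨t, b, s, h1, ht, h3⟩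
  have hνB : ∀ᶠ ν in 𝓝[>] (0 : ℝ), ∀ S : Finset ι, (∃ t : ℝ, t ≠ 0 ∧ CutAt t f S) →
      ∃ t b s : ℝ, (∀ i, (i ∈ S → Ph t b s (f i) < 0) ∧ (i ∉ S → 0 < Ph t b s (f i))) ∧ t ≠ 0 ∧
        ∀ q q', 0 < Ph (μ * t) (Cc (Y q) (l q) μ ν (μ * t) b)
            (Ss (Y q) (H q) A (l q) μ ν (μ * t) b s) (g q') ∧
          (q' ≠ q → ∀ i, 0 < Ph (μ * t) (Cc (Y q) (l q) μ ν (μ * t) b)
            (Ss (Y q) (H q) A (l q) μ ν (μ * t) b s) (cp (Y q') (H q') A (l q') μ ν (f i))) := by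
    rw [eventually_all]
    intro S
    by_cases h : ∃ t : ℝ, t ≠ 0 ∧ CutAt t f S
    swap
    · exact Eventually.of_forall fun τ h' => absurd h' h
    obtain ⟨t, b, s, h1, ht, h2⟩ := hμ S h
    have h3 : ∀ᶠ ν in 𝓝[>] (0 : ℝ), ∀ q q', 0 < Ph (μ * t) (Cc (Y q) (l q) μ ν (μ * t) b)
            (Ss (Y q) (H q) A (l q) μ ν (μ * t) b s) (g q') ∧
          (q' ≠ q → ∀ i, 0 < Ph (μ * t) (Cc (Y q) (l q) μ ν (μ * t) b)
            (Ss (Y q) (H q) A (l q) μ ν (μ * t) b s) (cp (Y q') (H q') A (l q') μ ν (f i))) := by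
      rw [eventually_all]
      intro q
      rw [eventually_all]
      intro q'
      refine (ev_fix (Y q) (H q) A (l q) μ (μ * t) b s (g q') (h2 q q').1).and ?_
      by_cases hq : q' = q
      · exact Eventually.of_forall fun τ h' => absurd hq h'
      have h4 : ∀ᶠ ν in 𝓝[>] (0 : ℝ), ∀ i, 0 < Ph (μ * t) (Cc (Y q) (l q) μ ν (μ * t) b)
            (Ss (Y q) (H q) A (l q) μ ν (μ * t) b s) (cp (Y q') (H q') A (l q') μ ν (f i)) := by
        rw [eventually_all]
        intro i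
        exact ev_copy (Y q) (H q) A (l q) μ (μ * t) b s (Y q') (H q') A (l q') (f i)
          ((h2 q q').2 hq)
      filter_upwards [h4] with ν h4 _
      exact h4
    filter_upwards [h3] with ν h3 _
    exact ⟨t, b, s, h1, ht, h3⟩
  have hνC : ∀ᶠ ν in 𝓝[>] (0 : ℝ), ∀ S : Finset ι, CutAt 0 f S →
      ∃ b s : ℝ, (∀ i, (i ∈ S → Ph 0 b s (f i) < 0) ∧ (i ∉ S → 0 < Ph 0 b s (f i))) ∧
        ∀ q, Ph (μ * 0) (Cc (Y q) (l q) μ ν (μ * 0) b)
            (Ss (Y q) (H q) A (l q) μ ν (μ * 0) b s) (g q) < 0 ∧ ∀ q', q' ≠ q →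
            0 < Ph (μ * 0) (Cc (Y q) (l q) μ ν (μ * 0) b)
              (Ss (Y q) (H q) A (l q) μ ν (μ * 0) b s) (g q') ∧
            ∀ i, 0 < Ph (μ * 0) (Cc (Y q) (l q) μ ν (μ * 0) b)
              (Ss (Y q) (H q) A (l q) μ ν (μ * 0) b s) (cp (Y q') (H q') A (l q') μ ν (f i)) := by
    rw [eventually_all]
    intro S
    by_cases h : CutAt 0 f S
    swap
    · exact Eventually.of_forall fun τ h' => absurd h' h
    obtain ⟨b, s, h1⟩ := h
    have h3 : ∀ᶠ ν in 𝓝[>] (0 : ℝ), ∀ q, Ph (μ * 0) (Cc (Y q) (l q) μ ν (μ * 0) b)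
            (Ss (Y q) (H q) A (l q) μ ν (μ * 0) b s) (g q) < 0 ∧ ∀ q', q' ≠ q →
            0 < Ph (μ * 0) (Cc (Y q) (l q) μ ν (μ * 0) b)
              (Ss (Y q) (H q) A (l q) μ ν (μ * 0) b s) (g q') ∧
            ∀ i, 0 < Ph (μ * 0) (Cc (Y q) (l q) μ ν (μ * 0) b)
              (Ss (Y q) (H q) A (l q) μ ν (μ * 0) b s) (cp (Y q') (H q') A (l q') μ ν (f i)) := by
      rw [eventually_all]
      intro q
      refine (ev_fix_neg (Y q) (H q) A (l q) μ (μ * 0) b s (g q) ?_).and ?_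
      · simp only [Lm, hY, hH, mul_zero]
        nlinarith
      rw [eventually_all]
      intro q'
      by_cases hq : q' = q
      · exact Eventually.of_forall fun τ h' => absurd hq h'
      have h4 : ∀ᶠ ν in 𝓝[>] (0 : ℝ), ∀ i, 0 < Ph (μ * 0) (Cc (Y q) (l q) μ ν (μ * 0) b)
            (Ss (Y q) (H q) A (l q) μ ν (μ * 0) b s) (cp (Y q') (H q') A (l q') μ ν (f i)) := by
        rw [eventually_all]
        intro i
        refine ev_copy (Y q) (H q) A (l q) μ (μ * 0) b s (Y q') (H q') A (l q') (f i) ?_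
        have := (hη q q' hq).2
        simp only [Lm, hY, hH, mul_zero]
        nlinarith
      have h5 := ev_fix (Y q) (H q) A (l q) μ (μ * 0) b s (g q') (by
        have := hδ q q' hq
        simp only [Lm, hY, hH, mul_zero]
        nlinarith)
      filter_upwards [h4, h5] with ν h4 h5 _
      exact ⟨h5, h4⟩
    filter_upwards [h3] with ν h3 _
    exact ⟨b, s, h1, h3⟩
  have hνD : ∀ᶠ ν in 𝓝[>] (0 : ℝ), ∀ q q' : κ, ∀ i, (g q').1 - (Y q + ν * (f i).1) ≠ 0 ∧
      (q' ≠ q → ∀ i', (Y q' + ν * (f i').1) - (Y q + ν * (f i).1) ≠ 0) := by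
    rw [eventually_all]
    intro q
    rw [eventually_all]
    intro q'
    rw [eventually_all]
    intro i
    refine (ev_ne (fun ν => (g q').1 - (Y q + ν * (f i).1)) (by fun_prop) ?_).and ?_
    · simpa using hYg q q'
    by_cases hq : q' = q
    · exact Eventually.of_forall fun τ h' => absurd hq h'
    have h4 : ∀ᶠ ν in 𝓝[>] (0 : ℝ), ∀ i', (Y q' + ν * (f i').1) - (Y q + ν * (f i).1) ≠ 0 := by
      rw [eventually_all]
      intro i'
      refine ev_ne (fun ν => (Y q' + ν * (f i').1) - (Y q + ν * (f i).1)) (by fun_prop) ?_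
      simpa using hYY q q' hq
    filter_upwards [h4] with ν h4 _
    exact h4
  obtain ⟨ν, hνA, hνB, hνC, hνD, hν0⟩ :=
    (hνA.and (hνB.and (hνC.and (hνD.and ev_self)))).exists
  have hsc : 0 < ν ^ 2 * μ ^ 2 := by positivity
  refine ⟨Sum.elim g (fun x => cp (Y x.1) (H x.1) A (l x.1) μ ν (f x.2)), ?_, ?_⟩
  · intro col hcol
    by_cases hcase : ∀ q, col (Sum.inl q) ≠ c
    · left
      obtain ⟨S, hSm, ⟨k, hk⟩, t, ht, hc⟩ := hg (fun q => col (Sum.inl q)) (fun q => by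
        have h1 := hcol (Sum.inl q)
        have h2 := hcase q
        show col (Sum.inl q) < c
        omega)
      obtain ⟨t, b, s, h1, h2, h3⟩ := hνA S ⟨t, ht, hc⟩
      refine ⟨S.map ⟨Sum.inl, Sum.inl_injective⟩, by rwa [Finset.card_map], ⟨k, ?_⟩, t, h2.ne, b, s,
        ?_⟩
      · intro x hx
        obtain ⟨q, hq, rfl⟩ := Finset.mem_map.1 hx
        exact hk q hq
      · rintro (q | ⟨q, i⟩)
        · refine ⟨fun h => (h1 q).1 ?_, fun h => (h1 q).2 ?_⟩
          · simpa using h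
          · simpa using h
        · refine ⟨fun h => ?_, fun _ => h3 q i⟩
          simp at h
    · push Not at hcase
      obtain ⟨q, hq⟩ := hcase
      rcases hf (fun i => col (Sum.inr (q, i))) (fun i => hcol _) with
        ⟨S, hSm, ⟨k, hk⟩, ht⟩ | ⟨S, hSj, hSc, hS0⟩
      · left
        obtain ⟨t, b, s, h1, h2, h3⟩ := hνB S ht
        refine ⟨S.map (emb q), by rwa [Finset.card_map], ⟨k, ?_⟩, μ * t, by positivity,
          Cc (Y q) (l q) μ ν (μ * t) b, Ss (Y q) (H q) A (l q) μ ν (μ * t) b s, ?_⟩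
        · intro x hx
          obtain ⟨i, hi, rfl⟩ := Finset.mem_map.1 hx
          exact hk i hi
        · rintro (q' | ⟨q', i⟩)
          · exact ⟨fun h => absurd h (inl_notMem S q q'), fun _ => (h3 q q').1⟩
          · rw [inr_mem]
            by_cases hqq : q' = q
            · subst hqq
              simp only [Sum.elim_inr]
              rw [Ph_cp]
              exact ⟨fun h => mul_neg_of_pos_of_neg hsc ((h1 i).1 h.2),
                fun h => mul_pos hsc ((h1 i).2 (fun h' => h ⟨trivial, h'⟩))⟩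
            · exact ⟨fun h => absurd h.1 hqq, fun _ => (h3 q q').2 hqq i⟩
      · right
        obtain ⟨b, s, h1, h3⟩ := hνC S hS0
        refine ⟨insert (Sum.inl q) (S.map (emb q)),
          ?_, ?_, Cc (Y q) (l q) μ ν (μ * 0) b, Ss (Y q) (H q) A (l q) μ ν (μ * 0) b s, ?_⟩
        · rw [Finset.card_insert_of_notMem (inl_notMem S q q), Finset.card_map, hSj]
        · intro x hx
          rcases Finset.mem_insert.1 hx with rfl | hx
          · exact hq
          · obtain ⟨i, hi, rfl⟩ := Finset.mem_map.1 hx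
            exact hSc i hi
        · have h3 := h3 q
          have e0 : (Ph 0 : ℝ → ℝ → Pt → ℝ) = Ph (μ * 0) := by rw [mul_zero]
          rw [e0]
          rintro (q' | ⟨q', i⟩)
          · by_cases hqq : q' = q
            · subst hqq
              exact ⟨fun _ => h3.1, fun h => absurd (Finset.mem_insert_self _ _) h⟩
            · refine ⟨fun h => ?_, fun _ => (h3.2 q' hqq).1⟩
              rcases Finset.mem_insert.1 h with h | h
              · exact absurd (Sum.inl_injective h) hqq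
              · exact absurd h (inl_notMem S q q')
          · by_cases hqq : q' = q
            · subst hqq
              simp only [Sum.elim_inr]
              rw [Ph_cp]
              refine ⟨fun h => mul_neg_of_pos_of_neg hsc ?_, fun h => mul_pos hsc ?_⟩
              · rcases Finset.mem_insert.1 h with h | h
                · exact absurd h Sum.inr_ne_inl
                · exact e0 ▸ (h1 i).1 ((inr_mem S q' q' i).1 h).2
              · exact (h1 i).2 (fun h' => h (Finset.mem_insert_of_mem ((inr_mem S q' q' i).2 ⟨rfl, h'⟩)))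
            · refine ⟨fun h => ?_, fun _ => (h3.2 q' hqq).2 i⟩
              rcases Finset.mem_insert.1 h with h | h
              · exact absurd h Sum.inr_ne_inl
              · exact absurd ((inr_mem S q q' i).1 h).1 hqq
  · rintro (q | ⟨q, i⟩) (q' | ⟨q', i'⟩) h
    · rw [hgs q q' h]
    · exact absurd (sub_eq_zero.2 h) (hνD q' q i').1
    · exact absurd (sub_eq_zero.2 h.symm) (hνD q q' i).1
    · by_cases hqq : q = q'
      · subst hqq
        have h2 : Y q + ν * (f i).1 = Y q + ν * (f i').1 := h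
        have h3 : (f i).1 = (f i').1 := mul_left_cancel₀ hν0.ne' (by linarith)
        rw [hfs i i' h3]
      · exact absurd (sub_eq_zero.2 h) ((hνD q' q i').2 hqq i)

end Pool.Agent.Y380.UB
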