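import Mathlib
import Pool.Agent.Y380.UB.Step

set_option autoImplicit false

namespace Pool.Agent.Y380.UB

open Filter Topology

theorem exists_semi (c m : ℕ) {κ : Type} [Finite κ] (g : κ → Pt) (l : κ → ℝ)
    (hg : Good c m {t | t < 0} g) (hgs : Sep g) (hgc : Conc g l) (j : ℕ) :
    ∃ (ι : Type) (_ : Finite ι) (f : ι → Pt), Semi c m j f ∧ Sep f := by
  induction j with
  | zero =>
    refine ⟨Empty, inferInstance, fun i => i.elim, ?_, fun i => i.elim⟩
    intro col _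
    right
    exact ⟨∅, rfl, fun i => i.elim, 0, 0, fun i => i.elim⟩
  | succ j ih =>
    obtain ⟨ι, _, f, h1, h2⟩ := ih
    obtain ⟨F, h3, h4⟩ := step c m j g l f hg hgs hgc h1 h2
    exact ⟨_, inferInstance, F, h3, h4⟩

/-- For all `c` and `m` there is a finite set of points such that every colouring with `c` colours
leaves a region with at least `m` points, all of one colour. -/
theorem exists_good (c m : ℕ) :
    ∃ (ι : Type) (_ : Finite ι) (f : ι → Pt), Good c m Set.univ f ∧ Sep f := by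
  induction c with
  | zero =>
    refine ⟨Unit, inferInstance, fun _ => (0, 0, 0), ?_, fun _ _ _ => rfl⟩
    intro col h
    exact absurd (h ()) (Nat.not_lt_zero _)
  | succ c ih =>
    obtain ⟨κ, _, g, h1, h2⟩ := ih
    obtain ⟨g', l, h3, h4, h5⟩ := norm c m g h1 h2
    obtain ⟨ι, hι, f, h6, h7⟩ := exists_semi c m g' l h3 h4 h5 m
    refine ⟨ι, hι, f, ?_, h7⟩
    intro col hcol
    rcases h6 col hcol with ⟨S, hS, hk, t, _, ht⟩ | ⟨S, hS, hc, h0⟩
    · exact ⟨S, hS, hk, t, trivial, ht⟩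
    · exact ⟨S, hS.ge, ⟨c, hc⟩, 0, trivial, h0⟩

/-- the points in space -/
noncomputable def psi (w : ℝ) (p : Pt) : EuclideanSpace ℝ (Fin 3) :=
  !₂[w ^ 2 * p.1, w ^ 5 * p.2.2 / 4, w ^ 4 * p.1 ^ 2 / 2 + w ^ 6 * p.2.1 / 4]

/-- the square of the last coordinate of the centre -/
noncomputable def Rr (w t c s : ℝ) : ℝ := 1 + w ^ 6 * s / 2 - w ^ 8 * c ^ 2 / 16 - w ^ 2 * t ^ 2

/-- the centres of the unit balls -/
noncomputable def zc (w t c s : ℝ) : EuclideanSpace ℝ (Fin 3) :=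
  !₂[-(w ^ 4 * c / 4), w * t, Real.sqrt (Rr w t c s)]

noncomputable def Gg (w t c s : ℝ) (p : Pt) : ℝ :=
  p.1 ^ 2 * ((t ^ 2 + w ^ 6 * c ^ 2 / 16 - w ^ 4 * s / 2) / (1 + Real.sqrt (Rr w t c s)))
    - p.2.1 * Real.sqrt (Rr w t c s) / 2 + c * p.1 / 2 - p.2.2 * t / 2 + s / 2
    + w ^ 4 * p.2.2 ^ 2 / 16 + w ^ 2 * (p.1 ^ 2 / 2 + w ^ 2 * p.2.1 / 4) ^ 2

lemma dist_psi (w t c s : ℝ) (p : Pt) (hR : 0 ≤ Rr w t c s) :
    dist (psi w p) (zc w t c s) ^ 2 = 1 + w ^ 6 * Gg w t c s p := by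
  have hw : Real.sqrt (Rr w t c s) ^ 2 = Rr w t c s := Real.sq_sqrt hR
  have h0 : 0 ≤ Real.sqrt (Rr w t c s) := Real.sqrt_nonneg _
  set r := Real.sqrt (Rr w t c s) with hr
  have hK : w ^ 2 * ((t ^ 2 + w ^ 6 * c ^ 2 / 16 - w ^ 4 * s / 2) / (1 + r)) = 1 - r := by
    have h1 : 1 + r ≠ 0 := by positivity
    rw [mul_div_assoc', div_eq_iff h1]
    simp only [Rr] at hw
    linear_combination hw
  rw [EuclideanSpace.dist_eq, Real.sq_sqrt (by positivity), Fin.sum_univ_three]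
  simp only [Real.dist_eq, sq_abs, psi, zc, Gg, ← hr]
  simp only [Rr] at hw
  simp
  linear_combination hw - w ^ 4 * p.1 ^ 2 * hK

lemma cont_R (t c s : ℝ) : Continuous (fun w => Rr w t c s) := by
  unfold Rr
  fun_prop

lemma cont_sqrt (t c s : ℝ) : Continuous (fun w => Real.sqrt (Rr w t c s)) :=
  (cont_R t c s).sqrt

lemma cont_G (t c s : ℝ) (p : Pt) : Continuous (fun w => Gg w t c s p) := by
  have h1 := cont_sqrt t c s
  have h2 : Continuous (fun w => (t ^ 2 + w ^ 6 * c ^ 2 / 16 - w ^ 4 * s / 2) /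
      (1 + Real.sqrt (Rr w t c s))) := by
    refine Continuous.div (by fun_prop) (by fun_prop) fun w => ?_
    have := Real.sqrt_nonneg (Rr w t c s)
    positivity
  unfold Gg
  fun_prop

lemma R_zero (t c s : ℝ) : Rr 0 t c s = 1 := by simp [Rr]

lemma G_zero (t c s : ℝ) (p : Pt) : Gg 0 t c s p = Ph t c s p / 2 := by
  simp only [Gg, R_zero, Ph, Real.sqrt_one]
  norm_num
  ring

lemma norm_psi_sq (w : ℝ) (p : Pt) : ‖psi w p‖ ^ 2 =
    (w ^ 2 * p.1) ^ 2 + (w ^ 5 * p.2.2 / 4) ^ 2 + (w ^ 4 * p.1 ^ 2 / 2 + w ^ 6 * p.2.1 / 4) ^ 2 := by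
  rw [EuclideanSpace.norm_eq, Real.sq_sqrt (by positivity), Fin.sum_univ_three]
  simp only [Real.norm_eq_abs, sq_abs]
  simp [psi, -mul_eq_mul_left_iff]

lemma norm_zc_sq (w t c s : ℝ) : ‖zc w t c s - !₂[0, 0, 1]‖ ^ 2 =
    (w ^ 4 * c / 4) ^ 2 + (w * t) ^ 2 + (Real.sqrt (Rr w t c s) - 1) ^ 2 := by
  rw [EuclideanSpace.norm_eq, Real.sq_sqrt (by positivity), Fin.sum_univ_three]
  simp only [Real.norm_eq_abs, sq_abs]
  simp [zc]

/-- every cut is realised by unit balls -/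
lemma lift {ι : Type} [Finite ι] (f : ι → Pt) (t : ℝ) (S : Finset ι) (h : CutAt t f S) (ε : ℝ)
    (hε : 0 < ε) :
    ∀ᶠ w in 𝓝[>] (0 : ℝ), ∃ z : EuclideanSpace ℝ (Fin 3), ‖z - !₂[0, 0, 1]‖ < ε ∧
      ∀ i, (i ∈ S → dist (psi w (f i)) z < 1) ∧ (i ∉ S → 1 < dist (psi w (f i)) z) := by
  obtain ⟨c, s, h⟩ := h
  have h1 : ∀ᶠ w in 𝓝[>] (0 : ℝ), ∀ i, (i ∈ S → Gg w t c s (f i) < 0) ∧
      (i ∉ S → 0 < Gg w t c s (f i)) := by
    rw [eventually_all]
    intro i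
    by_cases hi : i ∈ S
    · have h2 := ev_pos (fun w => -Gg w t c s (f i)) (cont_G t c s (f i)).neg (by
        have := (h i).1 hi
        show 0 < -Gg 0 t c s (f i)
        rw [G_zero]
        linarith)
      filter_upwards [h2] with w h2
      exact ⟨fun _ => by linarith, fun h' => absurd hi h'⟩
    · have h2 := ev_pos (fun w => Gg w t c s (f i)) (cont_G t c s (f i)) (by
        have := (h i).2 hi
        show 0 < Gg 0 t c s (f i)
        rw [G_zero]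
        linarith)
      filter_upwards [h2] with w h2
      exact ⟨fun h' => absurd h' hi, fun _ => h2⟩
  have h3 : ∀ᶠ w in 𝓝[>] (0 : ℝ), 0 < Rr w t c s :=
    ev_pos (fun w => Rr w t c s) (cont_R t c s) (by
      show 0 < Rr 0 t c s
      rw [R_zero]; norm_num)
  have h4 : ∀ᶠ w in 𝓝[>] (0 : ℝ), 0 < ε ^ 2 - ((w ^ 4 * c / 4) ^ 2 + (w * t) ^ 2
      + (Real.sqrt (Rr w t c s) - 1) ^ 2) := by
    refine ev_pos (fun w => ε ^ 2 - ((w ^ 4 * c / 4) ^ 2 + (w * t) ^ 2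
      + (Real.sqrt (Rr w t c s) - 1) ^ 2)) ?_ ?_
    · have := cont_sqrt t c s
      fun_prop
    · simp only [R_zero, Real.sqrt_one]
      norm_num
      positivity
  filter_upwards [h1, h3, h4, ev_self] with w h1 h3 h4 hw
  refine ⟨zc w t c s, ?_, fun i => ⟨fun hi => ?_, fun hi => ?_⟩⟩
  · refine lt_of_pow_lt_pow_left₀ 2 hε.le ?_
    rw [norm_zc_sq]
    linarith
  · refine lt_of_pow_lt_pow_left₀ 2 zero_le_one ?_
    rw [dist_psi w t c s (f i) h3.le]
    have h5 := mul_neg_of_pos_of_neg (pow_pos hw 6) ((h1 i).1 hi)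
    linarith
  · refine lt_of_pow_lt_pow_left₀ 2 dist_nonneg ?_
    rw [dist_psi w t c s (f i) h3.le]
    have h5 := mul_pos (pow_pos hw 6) ((h1 i).2 hi)
    linarith

lemma small {ι : Type} [Finite ι] (f : ι → Pt) (ε : ℝ) (hε : 0 < ε) :
    ∀ᶠ w in 𝓝[>] (0 : ℝ), ∀ i, ‖psi w (f i)‖ < ε := by
  rw [eventually_all]
  intro i
  have h := ev_pos (fun w => ε ^ 2 - ((w ^ 2 * (f i).1) ^ 2 + (w ^ 5 * (f i).2.2 / 4) ^ 2 +
    (w ^ 4 * (f i).1 ^ 2 / 2 + w ^ 6 * (f i).2.1 / 4) ^ 2)) (by fun_prop) (by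
      norm_num
      positivity)
  filter_upwards [h] with w h
  refine lt_of_pow_lt_pow_left₀ 2 hε.le ?_
  rw [norm_psi_sq]
  linarith

/-- **Unit balls in three-space**: all points near the origin, all centres near `(0, 0, 1)`. -/
theorem main (c m : ℕ) (ε : ℝ) (hε : 0 < ε) : ∃ P : Finset (EuclideanSpace ℝ (Fin 3)),
    (∀ p ∈ P, ‖p‖ < ε) ∧
    ∀ col : EuclideanSpace ℝ (Fin 3) → ℕ, (∀ p ∈ P, col p < c) →
      ∃ z : EuclideanSpace ℝ (Fin 3), ‖z - !₂[0, 0, 1]‖ < ε ∧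
        (∀ p ∈ P, dist p z ≠ 1) ∧ ∃ S ⊆ P, m ≤ S.card ∧ (∀ p ∈ P, dist p z < 1 ↔ p ∈ S) ∧
        ∃ k, ∀ p ∈ S, col p = k := by
  classical
  obtain ⟨ι, _, f, hg, hs⟩ := exists_good c m
  have := Fintype.ofFinite ι
  have h1 : ∀ᶠ w in 𝓝[>] (0 : ℝ), ∀ S : Finset ι, (∃ t, CutAt t f S) →
      ∃ z : EuclideanSpace ℝ (Fin 3), ‖z - !₂[0, 0, 1]‖ < ε ∧
      ∀ i, (i ∈ S → dist (psi w (f i)) z < 1) ∧ (i ∉ S → 1 < dist (psi w (f i)) z) := by
    rw [eventually_all]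
    intro S
    by_cases h : ∃ t, CutAt t f S
    swap
    · exact Eventually.of_forall fun τ h' => absurd h' h
    obtain ⟨t, h⟩ := h
    filter_upwards [lift f t S h ε hε] with w h _
    exact h
  obtain ⟨w, h1, h2, hw⟩ := (h1.and ((small f ε hε).and ev_self)).exists
  have hinj : Function.Injective (fun i => psi w (f i)) := by
    intro i j hij
    have h3 : psi w (f i) = psi w (f j) := hij
    have h4 : (psi w (f i)).ofLp 0 = (psi w (f j)).ofLp 0 := by rw [h3]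
    have h5 : w ^ 2 * (f i).1 = w ^ 2 * (f j).1 := by simpa [psi] using h4
    exact hs i j (mul_left_cancel₀ (pow_pos hw 2).ne' h5)
  refine ⟨Finset.univ.image (fun i => psi w (f i)), ?_, ?_⟩
  · intro p hp
    obtain ⟨i, _, rfl⟩ := Finset.mem_image.1 hp
    exact h2 i
  · intro col hcol
    obtain ⟨S, hS, ⟨k, hk⟩, t, _, ht⟩ := hg (fun i => col (psi w (f i)))
      (fun i => hcol _ (Finset.mem_image_of_mem _ (Finset.mem_univ i)))
    obtain ⟨z, hz, h3⟩ := h1 S ⟨t, ht⟩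
    refine ⟨z, hz, ?_, S.image (fun i => psi w (f i)), ?_, ?_, ?_, k, ?_⟩
    · intro p hp
      obtain ⟨i, _, rfl⟩ := Finset.mem_image.1 hp
      by_cases hi : i ∈ S
      · exact ((h3 i).1 hi).ne
      · exact ((h3 i).2 hi).ne'
    · exact Finset.image_subset_image (Finset.subset_univ _)
    · rwa [Finset.card_image_of_injective _ hinj]
    · intro p hp
      obtain ⟨i, _, rfl⟩ := Finset.mem_image.1 hp
      constructor
      · intro h
        by_contra hi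
        have : i ∉ S := fun h' => hi (Finset.mem_image_of_mem _ h')
        exact absurd h (not_lt.2 ((h3 i).2 this).le)
      · intro h
        obtain ⟨i', hi', h'⟩ := Finset.mem_image.1 h
        rw [← hinj h']
        exact (h3 i').1 hi'
    · intro p hp
      obtain ⟨i, hi, rfl⟩ := Finset.mem_image.1 hp
      exact hk i hi

end Pool.Agent.Y380.UB
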