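import Mathlib
import Pool.Agent.Y380.UB.Main

set_option autoImplicit false

namespace Pool.Agent.Y380.UB

open Filter Topology

/-- an isometric embedding of three-space carrying `(0, 0, 1)` to a given unit vector. -/
lemma exists_isometry (d : ℕ) (hd : 3 ≤ d) (e : EuclideanSpace ℝ (Fin d)) (he : ‖e‖ = 1) :
    ∃ U : EuclideanSpace ℝ (Fin 3) →ₗᵢ[ℝ] EuclideanSpace ℝ (Fin d), U !₂[0, 0, 1] = e := by
  classical
  have horth : Orthonormal ℝ (({⟨2, by omega⟩} : Set (Fin d)).domRestrict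
      (fun _ : Fin d => e)) := by
    rw [orthonormal_iff_ite]
    rintro ⟨i, hi⟩ ⟨j, hj⟩
    have h1 : i = j := by
      rw [Set.mem_singleton_iff] at hi hj
      rw [hi, hj]
    subst h1
    rw [if_pos rfl]
    show inner ℝ e e = 1
    rw [real_inner_self_eq_norm_sq, he]
    norm_num
  obtain ⟨b, hb⟩ := horth.exists_orthonormalBasis_extension_of_card_eq (by simp)
  have hbe : b ⟨2, by omega⟩ = e := hb _ (Set.mem_singleton _)
  have hv : Orthonormal ℝ (fun i : Fin 3 => b (Fin.castLE hd i)) :=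
    b.orthonormal.comp _ (Fin.castLE_injective hd)
  set B := (EuclideanSpace.basisFun (Fin 3) ℝ) with hB
  let L : EuclideanSpace ℝ (Fin 3) →ₗ[ℝ] EuclideanSpace ℝ (Fin d) :=
    B.toBasis.constr ℝ (fun i : Fin 3 => b (Fin.castLE hd i))
  have hL : ∀ i, L (B i) = b (Fin.castLE hd i) := by
    intro i
    have := B.toBasis.constr_basis ℝ (fun i : Fin 3 => b (Fin.castLE hd i)) i
    rwa [OrthonormalBasis.coe_toBasis] at this
  refine ⟨L.isometryOfOrthonormal (v := B.toBasis) (by
    rw [OrthonormalBasis.coe_toBasis]; exact B.orthonormal) ?_, ?_⟩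
  · convert hv using 1
    funext i
    rw [Function.comp_apply, OrthonormalBasis.coe_toBasis]
    exact hL i
  · rw [LinearMap.coe_isometryOfOrthonormal]
    have h2 : (!₂[0, 0, 1] : EuclideanSpace ℝ (Fin 3)) = B 2 := by
      ext i
      fin_cases i <;> simp [hB]
    rw [h2, hL 2]
    exact hbe

/-- unit balls in all dimensions at least three -/
theorem high (d : ℕ) (hd : 3 ≤ d) (c m : ℕ) (e : EuclideanSpace ℝ (Fin d)) (he : ‖e‖ = 1)
    (ε : ℝ) (hε : 0 < ε) : ∃ P : Finset (EuclideanSpace ℝ (Fin d)),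
    (∀ p ∈ P, ‖p‖ < ε) ∧
    ∀ col : EuclideanSpace ℝ (Fin d) → Fin c,
      ∃ z : EuclideanSpace ℝ (Fin d), ‖z - e‖ < ε ∧ (∀ p ∈ P, dist p z ≠ 1) ∧
        m ≤ {p : EuclideanSpace ℝ (Fin d) | p ∈ P ∧ dist p z ≤ 1}.ncard ∧
        ∃ k : Fin c, ∀ p ∈ P, dist p z ≤ 1 → col p = k := by
  classical
  obtain ⟨U, hU⟩ := exists_isometry d hd e he
  -- at least one point is needed to name a colour
  obtain ⟨P, hP, h⟩ := main c (max m 1) ε hε
  refine ⟨P.image U, ?_, ?_⟩
  · intro p hp
    obtain ⟨q, hq, rfl⟩ := Finset.mem_image.1 hp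
    rw [U.norm_map]
    exact hP q hq
  · intro col
    obtain ⟨z, hz, h1, S, hSP, hSm, hS, k, hk⟩ := h (fun p => (col (U p)).val)
      (fun p _ => (col (U p)).isLt)
    have hSne : S.Nonempty := by
      rw [← Finset.card_pos]
      have := le_max_right m 1
      omega
    obtain ⟨p0, hp0⟩ := hSne
    have hkc : k < c := by
      rw [← hk p0 hp0]
      exact (col (U p0)).isLt
    refine ⟨U z, ?_, ?_, ?_, ⟨k, hkc⟩, ?_⟩
    · rw [← hU, ← map_sub, U.norm_map]
      exact hz
    · intro p hp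
      obtain ⟨q, hq, rfl⟩ := Finset.mem_image.1 hp
      rw [U.dist_map]
      exact h1 q hq
    · have h2 : {p : EuclideanSpace ℝ (Fin d) | p ∈ P.image U ∧ dist p (U z) ≤ 1} =
          ((S.image U : Finset (EuclideanSpace ℝ (Fin d))) : Set (EuclideanSpace ℝ (Fin d))) := by
        ext p
        simp only [Set.mem_ofPred_eq, Finset.coe_image, Set.mem_image, Finset.mem_coe,
          Finset.mem_image]
        constructor
        · rintro ⟨⟨q, hq, rfl⟩, h3⟩
          rw [U.dist_map] at h3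
          exact ⟨q, (hS q hq).1 (lt_of_le_of_ne h3 (h1 q hq)), rfl⟩
        · rintro ⟨q, hq, rfl⟩
          refine ⟨⟨q, hSP hq, rfl⟩, ?_⟩
          rw [U.dist_map]
          exact ((hS q (hSP hq)).2 hq).le
      rw [h2, Set.ncard_coe_finset, Finset.card_image_of_injective _ U.injective]
      exact le_trans (le_max_left m 1) hSm
    · intro p hp hd
      obtain ⟨q, hq, rfl⟩ := Finset.mem_image.1 hp
      rw [U.dist_map] at hd
      have h3 := (hS q hq).1 (lt_of_le_of_ne hd (h1 q hq))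
      exact Fin.ext (hk q h3)

/-- one locally finite set for all numbers of colours and all `m` -/
theorem universal (d : ℕ) (hd : 3 ≤ d) : ∃ P : Set (EuclideanSpace ℝ (Fin d)),
    (∀ R : ℝ, (P ∩ Metric.closedBall 0 R).Finite) ∧
    ∀ (c m : ℕ) (col : EuclideanSpace ℝ (Fin d) → Fin c),
      ∃ z : EuclideanSpace ℝ (Fin d), (∀ p ∈ P, dist p z ≠ 1) ∧
        m ≤ {p : EuclideanSpace ℝ (Fin d) | p ∈ P ∧ dist p z ≤ 1}.ncard ∧
        ∃ k : Fin c, ∀ p ∈ P, dist p z ≤ 1 → col p = k := by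
  classical
  set e : EuclideanSpace ℝ (Fin d) := EuclideanSpace.single ⟨0, by omega⟩ (1 : ℝ) with he
  have he1 : ‖e‖ = 1 := by simp [he]
  choose Q hQ1 hQ2 using fun n : ℕ => high d hd n.unpair.1 n.unpair.2 e he1 1 one_pos
  have hne : ∀ r : ℝ, ‖r • e‖ = |r| := fun r => by rw [norm_smul, he1, mul_one, Real.norm_eq_abs]
  refine ⟨{x | ∃ n : ℕ, ∃ p ∈ Q n, x = p + (10 * n : ℝ) • e}, ?_, ?_⟩
  · intro R
    refine Set.Finite.subset (s := ⋃ n ∈ Finset.range (⌈|R|⌉₊ + 2),
      (((Q n).image (fun p => p + (10 * n : ℝ) • e) : Finset (EuclideanSpace ℝ (Fin d))) :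
        Set (EuclideanSpace ℝ (Fin d)))) ?_ ?_
    · exact Set.Finite.biUnion (Finset.finite_toSet _) (fun n _ => Finset.finite_toSet _)
    · rintro x ⟨⟨n, p, hp, rfl⟩, hx⟩
      rw [mem_closedBall_zero_iff] at hx
      have h1 := hQ1 n p hp
      have h2 := hne (10 * n)
      have h3 : ‖(10 * n : ℝ) • e‖ ≤ ‖p + (10 * n : ℝ) • e‖ + ‖p‖ := by
        have := norm_sub_le (p + (10 * n : ℝ) • e) p
        rwa [add_sub_cancel_left] at this
      rw [h2, abs_of_nonneg (by positivity)] at h3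
      have h4 : (n : ℝ) < ⌈|R|⌉₊ + 2 := by
        have h5 := Nat.le_ceil |R|
        have h6 := le_abs_self R
        have h7 := abs_nonneg R
        have h8 : (0 : ℝ) ≤ n := Nat.cast_nonneg n
        linarith
      simp only [Set.mem_iUnion, Finset.coe_image, Set.mem_image, Finset.mem_coe]
      exact ⟨n, Finset.mem_range.2 (by exact_mod_cast h4), p, hp, rfl⟩
  · intro c m col
    set n := Nat.pair c m with hn
    have hc : n.unpair.1 = c := by rw [hn, Nat.unpair_pair]
    have hm : n.unpair.2 = m := by rw [hn, Nat.unpair_pair]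
    obtain ⟨z, hz, h1, h2, k, hk⟩ := hQ2 n (fun p => Fin.cast hc.symm (col (p + (10 * n : ℝ) • e)))
    have hzn : ‖z‖ < 2 := by
      have := norm_add_le (z - e) e
      rw [sub_add_cancel, he1] at this
      linarith
    have hfar : ∀ n' : ℕ, n' ≠ n → ∀ p ∈ Q n',
        1 < dist (p + (10 * n' : ℝ) • e) (z + (10 * n : ℝ) • e) := by
      intro n' hn' p hp
      have h3 := hQ1 n' p hp
      have h4 : (p + (10 * n' : ℝ) • e) - (z + (10 * n : ℝ) • e) =
          (10 * ((n' : ℝ) - n)) • e + (p - z) := by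
        rw [mul_sub, sub_smul]
        abel
      rw [dist_eq_norm, h4]
      have h5 := norm_sub_le ((10 * ((n' : ℝ) - n)) • e + (p - z)) (p - z)
      rw [add_sub_cancel_right, hne] at h5
      have h6 := norm_sub_le p z
      have h7 : 1 ≤ |(n' : ℝ) - n| := by
        have h8 : (1 : ℤ) ≤ |(n' : ℤ) - n| := Int.one_le_abs (sub_ne_zero.2 (by exact_mod_cast hn'))
        exact_mod_cast h8
      rw [abs_mul, abs_of_pos (by norm_num : (0 : ℝ) < 10)] at h5
      linarith
    have hsame : ∀ p : EuclideanSpace ℝ (Fin d),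
        dist (p + (10 * n : ℝ) • e) (z + (10 * n : ℝ) • e) = dist p z := by
      intro p
      rw [dist_add_right]
    refine ⟨z + (10 * n : ℝ) • e, ?_, ?_, Fin.cast hc k, ?_⟩
    · rintro x ⟨n', p, hp, rfl⟩
      by_cases h3 : n' = n
      · subst h3
        rw [hsame]
        exact h1 p hp
      · exact (hfar n' h3 p hp).ne'
    · rw [hm] at h2
      refine le_trans h2 ?_
      have h3 : {x : EuclideanSpace ℝ (Fin d) | (∃ n' : ℕ, ∃ p ∈ Q n', x = p + (10 * n' : ℝ) • e) ∧
          dist x (z + (10 * n : ℝ) • e) ≤ 1} =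
          (fun p => p + (10 * n : ℝ) • e) '' {p | p ∈ Q n ∧ dist p z ≤ 1} := by
        ext x
        simp only [Set.mem_ofPred_eq, Set.mem_image]
        constructor
        · rintro ⟨⟨n', p, hp, rfl⟩, h4⟩
          by_cases h5 : n' = n
          · subst h5
            rw [hsame] at h4
            exact ⟨p, ⟨hp, h4⟩, rfl⟩
          · exact absurd h4 (not_le.2 (hfar n' h5 p hp))
        · rintro ⟨p, ⟨hp, h4⟩, rfl⟩
          refine ⟨⟨n, p, hp, rfl⟩, ?_⟩
          rw [hsame]
          exact h4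
      have h4 : {x : EuclideanSpace ℝ (Fin d) | x ∈ {x | ∃ n : ℕ, ∃ p ∈ Q n,
          x = p + (10 * n : ℝ) • e} ∧ dist x (z + (10 * n : ℝ) • e) ≤ 1} =
          (fun p => p + (10 * n : ℝ) • e) '' {p | p ∈ Q n ∧ dist p z ≤ 1} := h3
      rw [h4, Set.ncard_image_of_injective _ (add_left_injective _)]
    · rintro x ⟨n', p, hp, rfl⟩ h3
      by_cases h4 : n' = n
      · subst h4
        rw [hsame] at h3
        have h5 := hk p hp h3
        rw [← h5]
        rfl
      · exact absurd h3 (not_le.2 (hfar n' h4 p hp))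

end Pool.Agent.Y380.UB
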